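import Pool.Agent.helper54.V3.SpecG

set_option autoImplicit false

open Complex Metric Set Filter Topology MeasureTheory MPS V3

noncomputable section

namespace V3S

/-- the unimodular factor. -/
def GEN_u (B : ℂ) : ℂ := ((‖B‖ : ℝ) : ℂ) / B

lemma GEN_u_le (B : ℂ) : ‖GEN_u B‖ ≤ 1 := by
  unfold GEN_u
  rw [norm_div, Complex.norm_real, norm_norm]
  exact div_self_le_one _

lemma GEN_u_sub (B T : ℂ) (hB : B ≠ 0) : ‖GEN_u T - GEN_u B‖ ≤ 2 * ‖T - B‖ / ‖B‖ := by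
  have hB0 : 0 < ‖B‖ := norm_pos_iff.2 hB
  by_cases hT : T = 0
  · subst hT
    have h1 : GEN_u 0 = 0 := by unfold GEN_u; simp
    rw [h1, zero_sub, zero_sub, norm_neg, norm_neg, mul_div_assoc, div_self hB0.ne']
    linarith [GEN_u_le B]
  · have hT0 : 0 < ‖T‖ := norm_pos_iff.2 hT
    have h1 : GEN_u T - GEN_u B =
        (((‖T‖ : ℝ) : ℂ) * (B - T) + (((‖T‖ : ℝ) : ℂ) - ((‖B‖ : ℝ) : ℂ)) * T) / (T * B) := by
      unfold GEN_u
      field_simp
      ring
    rw [h1, norm_div, norm_mul T B, div_le_div_iff₀ (by positivity) hB0]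
    have h2 : ‖((‖T‖ : ℝ) : ℂ) * (B - T) + (((‖T‖ : ℝ) : ℂ) - ((‖B‖ : ℝ) : ℂ)) * T‖ ≤
        2 * ‖T‖ * ‖T - B‖ := by
      refine le_trans (norm_add_le _ _) ?_
      rw [norm_mul, norm_mul, Complex.norm_real, norm_norm, ← Complex.ofReal_sub, Complex.norm_real,
        norm_sub_rev B T]
      have h3 : ‖‖T‖ - ‖B‖‖ ≤ ‖T - B‖ := abs_norm_sub_norm_le T B
      nlinarith
    calc ‖((‖T‖ : ℝ) : ℂ) * (B - T) + (((‖T‖ : ℝ) : ℂ) - ((‖B‖ : ℝ) : ℂ)) * T‖ * ‖B‖
        ≤ 2 * ‖T‖ * ‖T - B‖ * ‖B‖ := mul_le_mul_of_nonneg_right h2 hB0.le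
      _ = 2 * ‖T - B‖ * (‖T‖ * ‖B‖) := by ring

lemma GEN_pt (θ θ' q q' B T : ℂ) (hθ : ‖θ‖ ≤ 1) (hθ' : ‖θ'‖ ≤ 1) (hB : B ≠ 0) :
    |(‖q‖ - (θ * q * GEN_u B).re) - (‖q'‖ - (θ' * q' * GEN_u T).re)| ≤
      2 * ‖q' - q‖ + ‖q‖ * (‖θ' - θ‖ + 2 * ‖T - B‖ / ‖B‖) := by
  have h1 : (‖q‖ - (θ * q * GEN_u B).re) - (‖q'‖ - (θ' * q' * GEN_u T).re) =
      (‖q‖ - ‖q'‖) + (θ' * q' * GEN_u T - θ * q * GEN_u B).re := by
    rw [Complex.sub_re]; ring
  rw [h1]
  refine le_trans (abs_add_le _ _) ?_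
  have h2 : |‖q‖ - ‖q'‖| ≤ ‖q' - q‖ := by
    rw [norm_sub_rev]; exact abs_norm_sub_norm_le q q'
  have h3 : |(θ' * q' * GEN_u T - θ * q * GEN_u B).re| ≤ ‖θ' * q' * GEN_u T - θ * q * GEN_u B‖ :=
    Complex.abs_re_le_norm _
  have h4 : θ' * q' * GEN_u T - θ * q * GEN_u B =
      θ' * GEN_u T * (q' - q) + q * ((θ' - θ) * GEN_u T + θ * (GEN_u T - GEN_u B)) := by ring
  have h5 : ‖θ' * GEN_u T * (q' - q)‖ ≤ ‖q' - q‖ := by
    rw [norm_mul, norm_mul]
    have h6 := GEN_u_le T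
    have h7 : ‖θ'‖ * ‖GEN_u T‖ ≤ 1 := mul_le_one₀ hθ' (norm_nonneg _) h6
    calc ‖θ'‖ * ‖GEN_u T‖ * ‖q' - q‖ ≤ 1 * ‖q' - q‖ :=
          mul_le_mul_of_nonneg_right h7 (norm_nonneg _)
      _ = ‖q' - q‖ := one_mul _
  have h6 : ‖q * ((θ' - θ) * GEN_u T + θ * (GEN_u T - GEN_u B))‖ ≤
      ‖q‖ * (‖θ' - θ‖ + 2 * ‖T - B‖ / ‖B‖) := by
    rw [norm_mul]
    refine mul_le_mul_of_nonneg_left ?_ (norm_nonneg _)
    refine le_trans (norm_add_le _ _) ?_
    rw [norm_mul, norm_mul]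
    have h7 : ‖θ' - θ‖ * ‖GEN_u T‖ ≤ ‖θ' - θ‖ * 1 :=
      mul_le_mul_of_nonneg_left (GEN_u_le T) (norm_nonneg _)
    have h8 : ‖θ‖ * ‖GEN_u T - GEN_u B‖ ≤ 1 * (2 * ‖T - B‖ / ‖B‖) :=
      mul_le_mul hθ (GEN_u_sub B T hB) (norm_nonneg _) zero_le_one
    linarith
  have h7 : ‖θ' * q' * GEN_u T - θ * q * GEN_u B‖ ≤ ‖q' - q‖ +
      ‖q‖ * (‖θ' - θ‖ + 2 * ‖T - B‖ / ‖B‖) := by
    rw [h4]
    exact le_trans (norm_add_le _ _) (add_le_add h5 h6)
  linarith

lemma GEN_En (θ : ℂ) (B q : ℂ → ℂ) (x : ℂ) :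
    En θ B q x = ‖q x‖ - (θ * q x * GEN_u (B x)).re := rfl

lemma GEN_en (D : Dat) (x : ℂ) :
    D.en x = ‖D.q x‖ - (D.lam / ((‖D.lam‖ : ℝ) : ℂ) * D.q x * GEN_u (D.T D.k x)).re := rfl

lemma GEN_En_bd (θ : ℂ) (B q : ℂ → ℂ) (x : ℂ) (hθ : ‖θ‖ ≤ 1) :
    0 ≤ En θ B q x ∧ En θ B q x ≤ 2 * ‖q x‖ := by
  rw [GEN_En]
  have h1 : |(θ * q x * GEN_u (B x)).re| ≤ ‖q x‖ := by
    refine le_trans (Complex.abs_re_le_norm _) ?_
    rw [norm_mul, norm_mul]
    have h2 := GEN_u_le (B x)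
    have h3 : ‖θ‖ * ‖q x‖ ≤ 1 * ‖q x‖ := mul_le_mul_of_nonneg_right hθ (norm_nonneg _)
    calc ‖θ‖ * ‖q x‖ * ‖GEN_u (B x)‖ ≤ (1 * ‖q x‖) * 1 :=
          mul_le_mul h3 h2 (norm_nonneg _) (by positivity)
      _ = ‖q x‖ := by ring
  have h2 := abs_le.1 h1
  constructor <;> linarith [h2.1, h2.2]

lemma GEN_meas_u : Measurable GEN_u := by
  unfold GEN_u
  exact (Complex.measurable_ofReal.comp measurable_norm).div measurable_id

lemma GEN_meas (D : Dat) : Measurable D.en := by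
  have hzz : Measurable D.zz := by
    unfold Dat.zz
    fun_prop
  have hB : Measurable D.B := by
    have h : D.B = fun x => D.sg ^ 2 * ∑ i, (1 / (D.zz x - D.b i) ^ 2 + D.g i / (D.zz x - D.b i)) := by
      funext x; rfl
    rw [h]
    refine Measurable.const_mul ?_ _
    refine Finset.measurable_fun_sum _ (fun i _ => ?_)
    refine Measurable.add ?_ ?_
    · exact measurable_const.div ((hzz.sub_const _).pow_const 2)
    · exact measurable_const.div (hzz.sub_const _)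
  have hF : ∀ j, Measurable (D.F j) := by
    intro j
    have hc : Continuous (D.F j) := by
      have h1 : Continuous D.zz := by unfold Dat.zz; fun_prop
      have h2 : Continuous (fun z => D.f.eval z) := D.f.continuous
      have h3 : Continuous ((fun z => D.f.eval z)^[j]) := h2.iterate j
      have h4 : Continuous D.xx := by unfold Dat.xx; fun_prop
      exact h4.comp (h3.comp h1)
    exact hc.measurable
  have hT : Measurable (D.T D.k) := by
    have h : D.T D.k = fun x => deriv (D.F D.k) x ^ 2 * D.B (D.F D.k x) := rfl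
    rw [h]
    exact ((measurable_deriv _).pow_const 2).mul (hB.comp (hF _))
  have hq : Measurable D.q := by
    have h : D.q = fun x => (D.T D.k x - D.B x) / D.lam := rfl
    rw [h]
    exact (hT.sub hB).div_const _
  have h : D.en = fun x => ‖D.q x‖ -
      (D.lam / ((‖D.lam‖ : ℝ) : ℂ) * D.q x * GEN_u (D.T D.k x)).re := by
    funext x; exact GEN_en D x
  rw [h]
  refine hq.norm.sub ?_
  exact Complex.measurable_re.comp ((hq.const_mul _).mul (GEN_meas_u.comp hT))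

theorem GEN (hGEI : GEI_stmt) (hGQL : GQL_stmt) (hGTC : GTC_stmt) (hREG : REG_stmt) : GEN_stmt := by
  intro n ra Cf D q θ hS hL hq hqB hθ hlim
  obtain ⟨C, hC0, hC⟩ := hGEI n ra Cf D hS hL
  refine ⟨C, hC0, ?_⟩
  intro ρ Ω M hΩ hΩρ hmult
  obtain ⟨hRo, -, hRiso⟩ := hREG n ra Cf D hS
  -- the compact case
  have hcont : ContinuousOn (En θ (Bin D) q) (Reg D) := by
    have hBc : ContinuousOn (Bin D) (Reg D) := hL.Bdiff.continuousOn.mono (fun x hx => hx.1)
    have h1 : ContinuousOn (fun x => GEN_u (Bin D x)) (Reg D) := by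
      unfold GEN_u
      refine ContinuousOn.div ?_ hBc (fun x hx => hx.2)
      exact Complex.continuous_ofReal.comp_continuousOn hBc.norm
    have h2 : ContinuousOn q (Reg D) := hq.continuous.continuousOn
    have h3 : ContinuousOn (fun x => ‖q x‖ - (θ * q x * GEN_u (Bin D x)).re) (Reg D) := by
      refine h2.norm.sub ?_
      exact Complex.continuous_re.comp_continuousOn ((continuousOn_const.mul h2).mul h1)
    exact h3
  have hcompact : ∀ K : Set ℂ, IsCompact K → K ⊆ Ω → K ⊆ Reg D →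
      ∫ x in K, En θ (Bin D) q x ≤ C * M := by
    intro K hK hKΩ hKR
    rcases K.eq_empty_or_nonempty with hKe | hKne
    · rw [hKe, Measure.restrict_empty, integral_zero_measure]
      positivity
    have hKm : MeasurableSet K := hK.measurableSet
    have hBc : ContinuousOn (Bin D) K := hL.Bdiff.continuousOn.mono (fun x hx => (hKR hx).1)
    obtain ⟨x₀, hx₀, hmin⟩ := hK.exists_isMinOn hKne hBc.norm
    obtain ⟨x₁, hx₁, hmax⟩ := hK.exists_isMaxOn hKne hq.continuous.norm.continuousOn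
    have hc0 : 0 < ‖Bin D x₀‖ := norm_pos_iff.2 (hKR hx₀).2
    obtain ⟨c, hc⟩ : ∃ c, c = ‖Bin D x₀‖ := ⟨_, rfl⟩
    obtain ⟨Q, hQ⟩ : ∃ Q, Q = ‖q x₁‖ := ⟨_, rfl⟩
    have hQ0 : 0 ≤ Q := by rw [hQ]; exact norm_nonneg _
    rw [← hc] at hc0
    have hBc' : ∀ x ∈ K, c ≤ ‖Bin D x‖ := fun x hx => by rw [hc]; exact hmin hx
    have hqQ : ∀ x ∈ K, ‖q x‖ ≤ Q := fun x hx => by rw [hQ]; exact hmax hx
    have hKint : IntegrableOn (En θ (Bin D) q) K := (hcont.mono hKR).integrableOn_compact hK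
    have hvol : volume K < ⊤ := hK.measure_lt_top
    obtain ⟨V, hV⟩ : ∃ V, V = volume.real K := ⟨_, rfl⟩
    have hV0 : 0 ≤ V := by rw [hV]; exact measureReal_nonneg
    refine le_of_forall_pos_le_add (fun η hη => ?_)
    -- choose epsilon
    obtain ⟨W, hW⟩ : ∃ W, W = (2 + Q * (1 + 2 / c)) * (V + 1) := ⟨_, rfl⟩
    have hW0 : 0 < W := by rw [hW]; positivity
    obtain ⟨ε, hε⟩ : ∃ ε, ε = η / W := ⟨_, rfl⟩
    have hε0 : 0 < ε := by rw [hε]; positivity
    have e1 := hGQL n ra Cf D hS hL K hK (fun x hx => (hKR hx).1) ε hε0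
    have e2 := hGTC n ra Cf D hS hL K hK (fun x hx => (hKR hx).1) ε hε0
    have e3 := hC ρ Ω M hΩ hΩρ hmult K hK hKΩ hKR
    have e4 : ∀ᶠ m in UF, ‖(D m).lam / ((‖(D m).lam‖ : ℝ) : ℂ) - θ‖ ≤ ε := by
      have h := (Metric.tendsto_nhds.1 hlim) ε hε0
      filter_upwards [h] with m hm
      rw [← dist_eq_norm]
      exact hm.le
    obtain ⟨m, h1, h2, h3, h4⟩ := (e1.and (e2.and (e3.and e4))).exists
    have hlam : ‖(D m).lam / ((‖(D m).lam‖ : ℝ) : ℂ)‖ ≤ 1 := by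
      rw [norm_div, Complex.norm_real, norm_norm]
      exact div_self_le_one _
    have hpt : ∀ x ∈ K, |En θ (Bin D) q x - (D m).en x| ≤ ε * (2 + Q * (1 + 2 / c)) := by
      intro x hx
      rw [GEN_En, GEN_en]
      refine le_trans (GEN_pt θ _ (q x) ((D m).q x) (Bin D x) ((D m).T (D m).k x) hθ.le hlam
        (hKR hx).2) ?_
      have g1 : ‖(D m).q x - q x‖ ≤ ε := by
        rw [hqB x (hKR hx).1]
        exact h1 x hx
      have g2 : ‖(D m).T (D m).k x - Bin D x‖ ≤ ε := h2 (D m).k le_rfl x hx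
      have g3 : 2 * ‖(D m).T (D m).k x - Bin D x‖ / ‖Bin D x‖ ≤ 2 * ε / c := by
        have := hBc' x hx
        gcongr
      have g4 : ‖q x‖ * (‖(D m).lam / ((‖(D m).lam‖ : ℝ) : ℂ) - θ‖ +
          2 * ‖(D m).T (D m).k x - Bin D x‖ / ‖Bin D x‖) ≤ Q * (ε + 2 * ε / c) := by
        refine mul_le_mul (hqQ x hx) (add_le_add h4 g3) (by positivity) hQ0
      calc 2 * ‖(D m).q x - q x‖ + ‖q x‖ * (‖(D m).lam / ((‖(D m).lam‖ : ℝ) : ℂ) - θ‖ +
          2 * ‖(D m).T (D m).k x - Bin D x‖ / ‖Bin D x‖) ≤ 2 * ε + Q * (ε + 2 * ε / c) := by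
            linarith
        _ = ε * (2 + Q * (1 + 2 / c)) := by ring
    have hint : IntegrableOn (D m).en K := by
      have hb : ∀ x ∈ K, ‖(D m).en x‖ ≤ 2 * Q + ε * (2 + Q * (1 + 2 / c)) := by
        intro x hx
        have g1 := abs_le.1 (hpt x hx)
        have g2 := GEN_En_bd θ (Bin D) q x hθ.le
        have g3 := hqQ x hx
        rw [Real.norm_eq_abs, abs_le]
        constructor <;> linarith [g1.1, g1.2, g2.1, g2.2]
      exact IntegrableOn.of_bound hvol (GEN_meas (D m)).aestronglyMeasurable _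
        ((ae_restrict_iff' hKm).2 (Filter.Eventually.of_forall hb))
    calc ∫ x in K, En θ (Bin D) q x
        ≤ ∫ x in K, ((D m).en x + ε * (2 + Q * (1 + 2 / c))) := by
          refine setIntegral_mono_on hKint (hint.add (integrableOn_const hvol.ne)) hKm ?_
          intro x hx
          have := (abs_le.1 (hpt x hx)).2
          linarith
      _ = (∫ x in K, (D m).en x) + V * (ε * (2 + Q * (1 + 2 / c))) := by
          rw [integral_add hint (integrableOn_const hvol.ne), setIntegral_const, ← hV, smul_eq_mul]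
      _ ≤ C * M + η := by
          have g1 : V * (ε * (2 + Q * (1 + 2 / c))) ≤ η := by
            have g2 : ε * W = η := by rw [hε]; field_simp
            rw [hW] at g2
            nlinarith [mul_pos hε0 (show 0 < 2 + Q * (1 + 2 / c) by positivity)]
          linarith
  -- the open case
  have hae : ∀ᵐ x : ℂ, x ∈ Reg D := by
    have h1 : Reg D ∈ codiscreteWithin (Set.univ : Set ℂ) := by
      rw [mem_codiscreteWithin]
      intro x _
      rw [disjoint_principal_right]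
      obtain ⟨ε, hε, h⟩ := hRiso x
      rw [mem_nhdsWithin]
      refine ⟨ball x ε, isOpen_ball, mem_ball_self hε, ?_⟩
      intro y hy
      have := h y hy.1 hy.2
      simp [this]
    have h2 := ae_restrict_le_codiscreteWithin (μ := (volume : Measure ℂ)) MeasurableSet.univ h1
    rw [Measure.restrict_univ] at h2
    exact h2
  have hset : (Ω : Set ℂ) =ᵐ[volume] (Ω ∩ Reg D : Set ℂ) := by
    filter_upwards [hae] with x hx
    apply propext
    constructor
    · intro h; exact ⟨h, hx⟩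
    · intro h; exact h.1
  rw [setIntegral_congr_set hset]
  have hso : IsOpen (Ω ∩ Reg D) := hΩ.inter hRo
  obtain ⟨F, hFc, hFs, hFU, hFm⟩ := hso.exists_iUnion_isClosed
  have hbdd : Bornology.IsBounded Ω := isBounded_ball.subset hΩρ
  have hFcomp : ∀ i, IsCompact (F i) := fun i =>
    Metric.isCompact_of_isClosed_isBounded (hFc i) (hbdd.subset (fun x hx => (hFs i hx).1))
  have hΩint : IntegrableOn (En θ (Bin D) q) (Ω ∩ Reg D) := by
    obtain ⟨Q, hQ⟩ : ∃ Q : ℝ, ∀ x ∈ closedBall (0 : ℂ) ρ, ‖q x‖ ≤ Q :=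
      (isCompact_closedBall (0 : ℂ) ρ).exists_bound_of_continuousOn hq.continuous.continuousOn
    have hvol : volume (Ω ∩ Reg D) < ⊤ :=
      lt_of_le_of_lt (measure_mono (fun x hx => hΩρ hx.1)) (measure_ball_lt_top)
    refine IntegrableOn.of_bound hvol
      ((hcont.mono (fun x hx => hx.2)).aestronglyMeasurable hso.measurableSet) (2 * Q)
      ((ae_restrict_iff' hso.measurableSet).2 (Filter.Eventually.of_forall ?_))
    intro x hx
    have g2 := GEN_En_bd θ (Bin D) q x hθ.le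
    have g3 := hQ x (ball_subset_closedBall (hΩρ hx.1))
    rw [Real.norm_eq_abs, abs_of_nonneg g2.1]
    linarith [g2.2]
  have hlimF := tendsto_setIntegral_of_monotone (f := En θ (Bin D) q) (μ := volume)
    (fun i => (hFc i).measurableSet) hFm (by rw [hFU]; exact hΩint)
  rw [hFU] at hlimF
  exact le_of_tendsto' hlimF (fun i => hcompact (F i) (hFcomp i) (fun x hx => (hFs i hx).1)
    (fun x hx => (hFs i hx).2))

end V3S
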