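import Pool.Agent.helper54.V3.SpecE

set_option autoImplicit false

open Complex Metric Set Filter Topology MeasureTheory

noncomputable section

namespace V3

/-- the exponential of the line. -/
def PCN_e (t x : ℂ) : ℂ := exp (2 * Real.pi * I * x / t)

lemma PCN_diff (t : ℂ) : Differentiable ℂ (PCN_e t) := by
  unfold PCN_e
  fun_prop

lemma PCN_P (t x : ℂ) (ht : t ≠ 0) (hx : x ∈ ZL t) : PCN_e t x = 1 := by
  obtain ⟨n, rfl⟩ := hx
  unfold PCN_e
  have h : 2 * (Real.pi : ℂ) * I * ((n : ℂ) * t) / t = (n : ℂ) * (2 * Real.pi * I) := by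
    field_simp
  rw [h]
  exact Complex.exp_int_mul_two_pi_mul_I n

lemma PCN_pre (t y : ℂ) (ht : t ≠ 0) (hy : y ≠ 0) : ∃ z : ℂ, PCN_e t z = y := by
  refine ⟨t / (2 * Real.pi * I) * Complex.log y, ?_⟩
  unfold PCN_e
  have hpi : (2 * (Real.pi : ℂ) * I) ≠ 0 := Complex.two_pi_I_ne_zero
  have h : 2 * (Real.pi : ℂ) * I * (t / (2 * Real.pi * I) * Complex.log y) / t = Complex.log y := by
    field_simp
  rw [h]
  exact Complex.exp_log hy

lemma PCN_slope (t z : ℂ) : ∃ d : ℂ → ℂ, AnalyticAt ℂ d z ∧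
    ∀ x, PCN_e t x - PCN_e t z = (x - z) * d x := by
  refine ⟨dslope (PCN_e t) z, ?_, ?_⟩
  · have h := (Complex.differentiableOn_dslope (f := PCN_e t) (c := z) (s := Set.univ)
      Filter.univ_mem).2 (PCN_diff t).differentiableOn
    exact h.analyticAt Filter.univ_mem
  · intro x
    have h := sub_smul_dslope (PCN_e t) z x
    rw [smul_eq_mul] at h
    exact h.symm

lemma PCN_ord (t z c : ℂ) (B f : ℂ → ℂ) (m : ℕ) (ht : t ≠ 0) (hz : PCN_e t z ≠ 1)
    (hf : AnalyticAt ℂ f z)
    (hB : ∀ x ∉ ZL t, B x = c * ((PCN_e t x - PCN_e t z) ^ m * f x) / (PCN_e t x - 1) ^ 2) :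
    z ∉ ZL t ∧ OrdGe B z m := by
  refine ⟨fun h => hz (PCN_P t z ht h), ?_⟩
  obtain ⟨d, hd, hde⟩ := PCN_slope t z
  have he : AnalyticAt ℂ (PCN_e t) z := (PCN_diff t).analyticAt z
  refine ⟨fun x => c * (d x ^ m * f x) / (PCN_e t x - 1) ^ 2, ?_, ?_⟩
  · refine AnalyticAt.div ?_ ?_ ?_
    · exact analyticAt_const.mul ((hd.pow m).mul hf)
    · exact (he.sub analyticAt_const).pow 2
    · exact pow_ne_zero 2 (sub_ne_zero.2 hz)
  · have hne : ∀ᶠ x in 𝓝 z, PCN_e t x ≠ 1 := he.continuousAt.eventually_ne hz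
    filter_upwards [hne] with x hx
    rw [hB x (fun h => hx (PCN_P t x ht h)), hde x, mul_pow]
    ring

theorem PCN : PCN_stmt := by
  intro P A g B v q θ t α β γ hL ht hP hsum hB
  by_contra hcon
  push Not at hcon
  obtain ⟨hα, hγ⟩ := hcon
  have hpi : (2 * (Real.pi : ℂ) * I) ≠ 0 := Complex.two_pi_I_ne_zero
  have hsum0 : α + β + γ ≠ 0 := by
    rw [hsum]
    exact pow_ne_zero 2 (div_ne_zero hpi ht)
  obtain ⟨s, hs⟩ := IsAlgClosed.exists_pow_nat_eq (β ^ 2 - 4 * α * γ) (n := 2) (by norm_num)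
  obtain ⟨y1, hy1⟩ : ∃ y1 : ℂ, y1 = (-β + s) / (2 * α) := ⟨_, rfl⟩
  obtain ⟨y2, hy2⟩ : ∃ y2 : ℂ, y2 = (-β - s) / (2 * α) := ⟨_, rfl⟩
  have hfac : ∀ y : ℂ, α * y ^ 2 + β * y + γ = α * ((y - y1) * (y - y2)) := by
    intro y
    rw [hy1, hy2]
    field_simp
    linear_combination hs
  have h10 : y1 * y2 ≠ 0 := by
    intro h0
    have := hfac 0
    have h2 : γ = α * (y1 * y2) := by linear_combination this
    rw [h0, mul_zero] at h2
    exact hγ h2
  have h11 : (1 - y1) * (1 - y2) ≠ 0 := by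
    intro h0
    have := hfac 1
    rw [h0, mul_zero] at this
    apply hsum0
    linear_combination this
  have hy10 : y1 ≠ 0 := left_ne_zero_of_mul h10
  have hy20 : y2 ≠ 0 := right_ne_zero_of_mul h10
  have hy11 : y1 ≠ 1 := fun h => (left_ne_zero_of_mul h11) (by rw [h, sub_self])
  have hy21 : y2 ≠ 1 := fun h => (right_ne_zero_of_mul h11) (by rw [h, sub_self])
  obtain ⟨z1, hz1⟩ := PCN_pre t y1 ht hy10
  obtain ⟨z2, hz2⟩ := PCN_pre t y2 ht hy20
  have he : ∀ z, AnalyticAt ℂ (PCN_e t) z := fun z => (PCN_diff t).analyticAt z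
  have hB' : ∀ x ∉ ZL t, B x = α * ((PCN_e t x - y1) * (PCN_e t x - y2)) / (PCN_e t x - 1) ^ 2 := by
    intro x hx
    have h1 := hB x (by rw [hP]; exact hx)
    have h2 := hfac (PCN_e t x)
    rw [← h2, h1]
    rfl
  by_cases hyy : y1 = y2
  · have h2 : z1 ∉ ZL t ∧ OrdGe B z1 2 := by
      refine PCN_ord t z1 α B (fun _ => 1) 2 ht (by rw [hz1]; exact hy11) analyticAt_const ?_
      intro x hx
      rw [hB' x hx, hz1, ← hyy]
      ring
    have h3 := hL.cZ t ht hP {z1} (fun _ => 2) (by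
      intro z hz
      rw [Finset.mem_singleton] at hz
      subst hz
      rw [hP]
      exact h2) (by
      intro z hz z' hz' hne
      rw [Finset.mem_singleton] at hz hz'
      exact absurd (hz.trans hz'.symm) hne)
    simp at h3
  · have h1 : z1 ∉ ZL t ∧ OrdGe B z1 1 := by
      refine PCN_ord t z1 α B (fun x => PCN_e t x - y2) 1 ht (by rw [hz1]; exact hy11)
        ((he z1).sub analyticAt_const) ?_
      intro x hx
      rw [hB' x hx, hz1, pow_one]
    have h2 : z2 ∉ ZL t ∧ OrdGe B z2 1 := by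
      refine PCN_ord t z2 α B (fun x => PCN_e t x - y1) 1 ht (by rw [hz2]; exact hy21)
        ((he z2).sub analyticAt_const) ?_
      intro x hx
      rw [hB' x hx, hz2, pow_one, mul_comm (PCN_e t x - y1)]
    have hz12 : z1 ≠ z2 := by
      intro h
      apply hyy
      rw [← hz1, ← hz2, h]
    have hper : ∀ z w : ℂ, w - z ∈ ZL t → PCN_e t w = PCN_e t z := by
      intro z w h
      have h1 := PCN_P t (w - z) ht h
      have h2 : PCN_e t w = PCN_e t (w - z) * PCN_e t z := by
        unfold PCN_e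
        rw [← Complex.exp_add]
        congr 1
        ring
      rw [h2, h1, one_mul]
    have h3 := hL.cZ t ht hP {z1, z2} (fun _ => 1) (by
      intro z hz
      rw [Finset.mem_insert, Finset.mem_singleton] at hz
      rw [hP]
      rcases hz with hz | hz
      · subst hz; exact h1
      · subst hz; exact h2) (by
      intro z hz z' hz' hne h
      have h4 := hper z z' h
      rw [Finset.mem_insert, Finset.mem_singleton] at hz hz'
      rcases hz with hz | hz <;> rcases hz' with hz' | hz'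
      · exact hne (hz.trans hz'.symm)
      · rw [hz, hz', hz1, hz2] at h4; exact hyy h4.symm
      · rw [hz, hz', hz1, hz2] at h4; exact hyy h4
      · exact hne (hz.trans hz'.symm))
    rw [Finset.sum_const, Finset.card_pair hz12] at h3
    norm_num at h3

end V3
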