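import Pool.Agent.helper10.V3.SpecL

set_option autoImplicit false

open Complex Metric Set Filter Topology MeasureTheory MPS

noncomputable section

namespace V3S

lemma SEP_key (C : ℝ) (hKO : ∀ (G : ℂ → ℂ) (a : ℂ) (r : ℝ), 0 < r → DifferentiableOn ℂ G (ball a r) →
    InjOn G (ball a r) → ball (G a) (r * ‖deriv G a‖ / C) ⊆ G '' ball a r)
    (hNI : MPS.NI_stmt) (hND : MPS.ND_stmt) (k : ℕ) [NeZero k] (b g : ZMod k → ℂ)
    (ψ : ZMod k → ℂ → ℂ) (hb : Function.Injective b) (hmx : ∀ i, MaxPN b g i (ψ i))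
    (i l : ZMod k) (hil : i ≠ l) : ‖deriv (ψ i) 0‖ / C ≤ ‖b i - b l‖ := by
  by_contra hcon
  push Not at hcon
  have hd := hND k b g i l (ψ i) (ψ l) hb hil (hmx i) (hmx l)
  have h1 := hKO (ψ i) 0 1 one_pos (hmx i).pn.diff (hNI k b g i (ψ i) 1 (hmx i).pn)
  have h2 : b l ∈ ball (ψ i 0) (1 * ‖deriv (ψ i) 0‖ / C) := by
    rw [(hmx i).pn.val, mem_ball, dist_eq_norm, norm_sub_rev, one_mul]
    exact hcon
  have h3 := h1 h2
  have h4 : b l ∈ ψ l '' ball 0 1 := ⟨0, mem_ball_self one_pos, (hmx l).pn.val⟩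
  exact (Set.disjoint_left.1 hd) h3 h4

theorem SEP (hKO1 : V3.KO1_stmt) (hNI : MPS.NI_stmt) (hND : MPS.ND_stmt) : SEP_stmt := by
  obtain ⟨C, hC, hKO⟩ := hKO1
  have hC0 : (0 : ℝ) < C := lt_of_lt_of_le one_pos hC
  refine ⟨1 / C, by positivity, ?_⟩
  intro n ra Cf D hD
  have hsg : D.sg ≠ 0 := (hD.mx 0).pn.der
  have hsg0 : 0 < ‖D.sg‖ := norm_pos_iff.2 hsg
  have hkey : ∀ i l, i ≠ l → ‖deriv (D.ψ i) 0‖ / C ≤ ‖D.b i - D.b l‖ :=
    fun i l hil => SEP_key C hKO hNI hND D.k D.b D.g D.ψ hD.cyc.inj hD.mx i l hil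
  have hpp : ∀ i l, ‖D.p i - D.p l‖ = ‖D.b i - D.b l‖ / ‖D.sg‖ := by
    intro i l
    have h : D.p i - D.p l = (D.b i - D.b l) / D.sg := by
      unfold Dat.p Dat.xx
      field_simp
      ring
    rw [h, norm_div]
  have hp0 : D.p 0 = 0 := by
    unfold Dat.p Dat.xx
    simp
  have hmain : ∀ i l, i ≠ l → 1 / C * (‖deriv (D.ψ i) 0‖ / ‖D.sg‖) ≤ ‖D.p i - D.p l‖ := by
    intro i l hil
    rw [hpp i l]
    have h := hkey i l hil
    have h2 : 1 / C * (‖deriv (D.ψ i) 0‖ / ‖D.sg‖) = ‖deriv (D.ψ i) 0‖ / C / ‖D.sg‖ := by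
      field_simp
    rw [h2]
    exact div_le_div_of_nonneg_right h hsg0.le
  refine ⟨?_, ?_⟩
  · intro i l hil
    refine le_trans ?_ (hmain i l hil)
    have h1 : 1 ≤ ‖deriv (D.ψ i) 0‖ / ‖D.sg‖ := by
      rw [le_div_iff₀ hsg0, one_mul]
      exact hD.mini i
    have h2 : 0 < 1 / C := by positivity
    nlinarith
  · intro l hl
    have h := hmain l 0 hl
    rw [hp0, sub_zero] at h
    exact h

end V3S
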